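import Pool.Agent.Q252.P4.Main

/-!
# Linear forms taking power-of-4 values on four-square representations of squares

If `a, b, c` are positive integers with squarefree greatest common divisor such that for every
`n ≥ 1` there are natural numbers `x, y, z, w` with `n² = x² + y² + z² + w²` and `a x + b y + c z`
a power of 4, then `{a, b, c} = {1, 2, 3}`.

The proof uses only the conditions for `n = 1, 2, 3, 6, 7` and, for finitely many families of
triples, `n = 9, 11, 13, 15, 18, 19, 22, 23, 25, 26, 29`. The condition for one `n` says that one of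
finitely many linear forms takes a value `4 ^ k`; reading `a, b, c` in base 4 from the last digit,
this is recognised by a finite automaton (the state is the list of the forms which are still
possible, with their carries), and the intersection of the automata is computed by the kernel
(`Pool.Agent.Q252.P4.RunA`, `RunB`), with cycles treated by induction on the size of the remaining
digits.
-/

set_option autoImplicit false

namespace Pool.Agent.Results.MP_42cda2_nt.Uniqueness

open Pool.Agent.Q252.P4

/-- **Q1.** The triple `{1, 2, 3}` is the only possible one. -/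
theorem result (a b c : ℕ) (ha : 0 < a) (hb : 0 < b) (hc : 0 < c)
    (hg : Squarefree (Nat.gcd a (Nat.gcd b c)))
    (hP : ∀ n : ℕ, 0 < n → ∃ x y z w k : ℕ,
      n ^ 2 = x ^ 2 + y ^ 2 + z ^ 2 + w ^ 2 ∧ a * x + b * y + c * z = 4 ^ k) :
    ({a, b, c} : Multiset ℕ) = {1, 2, 3} := by
  have hcond : ∀ n, 1 ≤ n → Cond n a b c := fun n hn => hP n hn
  have h4 : ¬(a % 4 = 0 ∧ b % 4 = 0 ∧ c % 4 = 0) := by
    rintro ⟨h1, h2, h3⟩
    have hd : 2 * 2 ∣ Nat.gcd a (Nat.gcd b c) :=
      Nat.dvd_gcd (Nat.dvd_of_mod_eq_zero h1)
        (Nat.dvd_gcd (Nat.dvd_of_mod_eq_zero h2) (Nat.dvd_of_mod_eq_zero h3))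
    have := hg 2 hd
    rw [Nat.isUnit_iff] at this
    omega
  rcases cond_one (hcond 1 le_rfl) with h | h | h
  · rcases main a b c ha hb hc h4 hcond h with ⟨rfl, rfl, rfl⟩ | ⟨rfl, rfl, rfl⟩
    · rfl
    · decide
  · rcases main b a c hb ha hc (by omega) (fun n hn => (hcond n hn).swap) h with
      ⟨rfl, rfl, rfl⟩ | ⟨rfl, rfl, rfl⟩
    · decide
    · decide
  · rcases main c a b hc ha hb (by omega) (fun n hn => (hcond n hn).rot.swap) h with
      ⟨rfl, rfl, rfl⟩ | ⟨rfl, rfl, rfl⟩
    · decide
    · decide

end Pool.Agent.Results.MP_42cda2_nt.Uniqueness
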